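import Pool.Agent.K1H32.TD.Fin

/-!
# Localization for Toeplitz determinants with two merging clusters of jumps

`D n a` is the `n × n` Toeplitz determinant of the symbol `a`, `u β t z = (-z/t)^β` the pure jump,
`sym b β t` the symbol `b ∏ u_{β_r,t_r}` and `SmoothWZ b` says that `b` is smooth and nonvanishing
on the unit circle with winding number zero.

If `∑ |β_r| ≤ 1/5` and `∑ |β'_s| ≤ 1/5`, then for all such `b`, `b'`, all `t₀ ≠ t₀'` and all
sequences `t_r(n) → t₀`, `t'_s(n) → t₀'` on the circle the quotient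
`D_n(a a') / (D_n(a) D_n(a'))` is defined for all large `n` and converges.

The second part explains why the smallness is measured by the sums: for a number of jumps that is
not fixed, exponents that are all smaller than `ε` can add up to the symbol `-z`, whose
determinants of positive size all vanish.
-/

set_option autoImplicit false

open Filter Topology

namespace Pool.Agent.Results.MP_af63cc_an.TwoClusters

open Pool.Agent.K1H32.TD

/-- the quotient of Q1 -/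
noncomputable def clusterRatio {R S : ℕ} (b b' : ℂ → ℂ) (β : Fin R → ℂ) (β' : Fin S → ℂ) (t : Fin R → ℂ)
    (t' : Fin S → ℂ) (n : ℕ) : ℂ :=
  D n (fun z => sym b β t z * sym b' β' t' z) / (D n (sym b β t) * D n (sym b' β' t'))

theorem result :
    (∀ (R S : ℕ) (β : Fin R → ℂ) (β' : Fin S → ℂ), ∑ r, ‖β r‖ ≤ 1 / 5 → ∑ s, ‖β' s‖ ≤ 1 / 5 →
      ∀ b b' : ℂ → ℂ, SmoothWZ b → SmoothWZ b' →
      ∀ t₀ t₀' : ℂ, ‖t₀‖ = 1 → ‖t₀'‖ = 1 → t₀ ≠ t₀' →
      ∀ (t : ℕ → Fin R → ℂ) (t' : ℕ → Fin S → ℂ), (∀ n r, ‖t n r‖ = 1) → (∀ n s, ‖t' n s‖ = 1) →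
      (∀ r, Tendsto (fun n => t n r) atTop (𝓝 t₀)) →
      (∀ s, Tendsto (fun n => t' n s) atTop (𝓝 t₀')) →
      (∀ᶠ n in atTop, D n (sym b β (t n)) ≠ 0 ∧ D n (sym b' β' (t' n)) ≠ 0) ∧
      ∃ L : ℂ, Tendsto (fun n => clusterRatio b b' β β' (t n) (t' n) n) atTop (𝓝 L)) ∧
    (∀ ε : ℝ, 0 < ε → ∃ (R : ℕ) (β : Fin R → ℂ), (∀ r, ‖β r‖ < ε) ∧
      ∀ n : ℕ, 1 ≤ n → D n (sym (fun _ => 1) β (fun _ => 1)) = 0) :=
  ⟨fun R S β β' hβ hβ' b b' hb hb' t₀ t₀' h₀ h₀' hne t t' ht ht' hl hl' =>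
    two_clusters R S β β' hβ hβ' b b' hb hb' t₀ t₀' h₀ h₀' hne t t' ht ht' hl hl', many_tiny⟩

end Pool.Agent.Results.MP_af63cc_an.TwoClusters
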